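import Mathlib
import Pool.Agent.Helper76_TOR.TwQ

/-! THE: the closed-up surface is the standard surface. -/

set_option autoImplicit false

namespace Pool.Agent.TOW.H20

open FreeGroup Pool.Agent.TST Pool.Agent.TOR Pool.Agent.TOR.H59 Pool.Agent.TOR96

/-- shift of the handles -/
def sh (N : ℕ) : FreeGroup (Fin 2 × Fin N) →* FreeGroup (Fin 2 × Fin (N + 1)) :=
  FreeGroup.map fun l => (l.1, l.2.succ)

theorem sh_of {N : ℕ} (l : Fin 2 × Fin N) : sh N (of l) = of (l.1, l.2.succ) := by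
  rw [sh, FreeGroup.map.of]

theorem zeta_cons (N : ℕ) : zeta (N + 1) =
    of ((0 : Fin 2), (0 : Fin (N + 1))) * of ((1 : Fin 2), (0 : Fin (N + 1))) *
      (of ((0 : Fin 2), (0 : Fin (N + 1))))⁻¹ * (of ((1 : Fin 2), (0 : Fin (N + 1))))⁻¹ *
      sh N (zeta N) := by
  unfold zeta
  rw [List.finRange_succ, List.map_cons, List.prod_cons, List.map_map, map_list_prod, List.map_map]
  congr 2

section step

variable {A B : Type} {N : ℕ} (Θ : FreeGroup (Fin 2 × Fin N) ≃* FreeGroup (A ⊕ B))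

/-- forward map -/
def tF : FreeGroup (Fin 2 × Fin (N + 1)) →* FreeGroup (Option A ⊕ Option B) :=
  FreeGroup.lift fun l => Fin.cases (motive := fun _ => FreeGroup (Option A ⊕ Option B))
    (if l.1 = 0 then of (Sum.inr none) else (of (Sum.inl none))⁻¹)
    (fun i => (of (Sum.inl none))⁻¹ * em (Θ (of (l.1, i))) * of (Sum.inl none)) l.2

theorem tF_a : tF Θ (of (0, 0)) = of (Sum.inr none) := by
  rw [tF, lift_apply_of]
  rfl

theorem tF_b : tF Θ (of (1, 0)) = (of (Sum.inl none))⁻¹ := by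
  rw [tF, lift_apply_of]
  rfl

theorem tF_sh (v : FreeGroup (Fin 2 × Fin N)) : tF Θ (sh N v) =
    (of (Sum.inl none))⁻¹ * em (Θ v) * of (Sum.inl none) := by
  have h : (tF Θ).comp (sh N) = ((MulAut.conj (of (Sum.inl none) :
      FreeGroup (Option A ⊕ Option B))⁻¹).toMonoidHom.comp em).comp Θ.toMonoidHom := by
    refine fx fun l => ?_
    show tF Θ (sh N (of l)) = (of (Sum.inl none))⁻¹ * em (Θ (of l)) * (of (Sum.inl none))⁻¹⁻¹
    rw [sh_of, tF, lift_apply_of, inv_inv]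
    rfl
  have h1 := DFunLike.congr_fun h v
  have h2 : tF Θ (sh N v) = (of (Sum.inl none))⁻¹ * em (Θ v) * (of (Sum.inl none))⁻¹⁻¹ := h1
  rw [h2, inv_inv]

/-- backward map -/
def tB : FreeGroup (Option A ⊕ Option B) →* FreeGroup (Fin 2 × Fin (N + 1)) :=
  FreeGroup.lift (Sum.elim
    (fun o => o.elim (of (1, 0))⁻¹
      (fun a => (of (1, 0))⁻¹ * sh N (Θ.symm (of (Sum.inl a))) * of (1, 0)))
    (fun o => o.elim (of (0, 0))
      (fun b => (of (1, 0))⁻¹ * sh N (Θ.symm (of (Sum.inr b))) * of (1, 0))))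

theorem tB_x : tB Θ (of (Sum.inl none)) = (of (1, 0))⁻¹ := by
  rw [tB, lift_apply_of]
  rfl

theorem tB_y : tB Θ (of (Sum.inr none)) = of (0, 0) := by
  rw [tB, lift_apply_of]
  rfl

theorem em_of {α η : Type} (s : α ⊕ η) : (em (of s) : FreeGroup (Option α ⊕ Option η)) =
    of (Sum.map some some s) := by
  rw [em, FreeGroup.map.of]

theorem tB_em (u : FreeGroup (A ⊕ B)) : tB Θ (em u) =
    (of (1, 0))⁻¹ * sh N (Θ.symm u) * of (1, 0) := by
  have h : (tB Θ).comp em = ((MulAut.conj (of (1, 0) :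
      FreeGroup (Fin 2 × Fin (N + 1)))⁻¹).toMonoidHom.comp (sh N)).comp Θ.symm.toMonoidHom := by
    refine fx fun s => ?_
    show tB Θ (em (of s)) = (of (1, 0))⁻¹ * sh N (Θ.symm (of s)) * (of (1, 0))⁻¹⁻¹
    rw [em_of, tB, lift_apply_of, inv_inv]
    rcases s with a | b <;> rfl
  have h1 := DFunLike.congr_fun h u
  have h2 : tB Θ (em u) = (of (1, 0))⁻¹ * sh N (Θ.symm u) * (of (1, 0))⁻¹⁻¹ := h1
  rw [h2, inv_inv]

theorem tBF : (tB Θ).comp (tF Θ) = MonoidHom.id _ := by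
  refine fx fun l => ?_
  rw [MonoidHom.comp_apply, MonoidHom.id_apply]
  obtain ⟨e, i⟩ := l
  refine Fin.cases ?_ (fun i => ?_) i
  · fin_cases e
    · show tB Θ (tF Θ (of (0, 0))) = of (0, 0)
      rw [tF_a, tB_y]
    · show tB Θ (tF Θ (of (1, 0))) = of (1, 0)
      rw [tF_b, _root_.map_inv, tB_x, inv_inv]
  · have h : (of (e, i.succ) : FreeGroup (Fin 2 × Fin (N + 1))) = sh N (of (e, i)) := by
      rw [sh_of]
    rw [h, tF_sh, _root_.map_mul, _root_.map_mul, _root_.map_inv, tB_x, tB_em,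
      MulEquiv.symm_apply_apply]
    group

theorem tFB : (tF Θ).comp (tB Θ) = MonoidHom.id _ := by
  refine fx fun s => ?_
  rw [MonoidHom.comp_apply, MonoidHom.id_apply]
  rcases s with (_ | a) | (_ | b)
  · rw [tB_x, _root_.map_inv, tF_b, inv_inv]
  · have h : (of (Sum.inl (some a)) : FreeGroup (Option A ⊕ Option B)) = em (of (Sum.inl a)) := by
      rw [em_of]
      rfl
    rw [h, tB_em, _root_.map_mul, _root_.map_mul, _root_.map_inv, tF_b, tF_sh,
      MulEquiv.apply_symm_apply]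
    group
  · rw [tB_y, tF_a]
  · have h : (of (Sum.inr (some b)) : FreeGroup (Option A ⊕ Option B)) = em (of (Sum.inr b)) := by
      rw [em_of]
      rfl
    rw [h, tB_em, _root_.map_mul, _root_.map_mul, _root_.map_inv, tF_b, tF_sh,
      MulEquiv.apply_symm_apply]
    group

/-- one more hole -/
def tE : FreeGroup (Fin 2 × Fin (N + 1)) ≃* FreeGroup (Option A ⊕ Option B) :=
  MonoidHom.toMulEquiv (tF Θ) (tB Θ) (tBF Θ) (tFB Θ)

theorem tE_a : tE Θ (of (0, 0)) = of (Sum.inr none) := tF_a Θ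

theorem tE_b : tE Θ (of (1, 0)) = (of (Sum.inl none))⁻¹ := tF_b Θ

theorem tE_sh (v : FreeGroup (Fin 2 × Fin N)) : tE Θ (sh N v) =
    (of (Sum.inl none))⁻¹ * em (Θ v) * of (Sum.inl none) := tF_sh Θ v

end step

theorem em_jn {α η : Type} (u : FreeGroup α) : (em (jn η u) : FreeGroup (Option α ⊕ Option η)) =
    jn (Option η) (inc u) := by
  have h : (em (α := α) (η := η)).comp (jn η) = (jn (Option η)).comp inc := fx fun a => by
    rw [MonoidHom.comp_apply, MonoidHom.comp_apply, mof, mof, mof, em_of]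
    rfl
  exact DFunLike.congr_fun h u

/-- the subgroup of the hole letters -/
def hc {A B : Type} (H : B → A) : Subgroup (FreeGroup (A ⊕ B)) :=
  Subgroup.closure (Set.range fun h => (of (Sum.inl (H h)) : FreeGroup (A ⊕ B)))

theorem hc_em {A B : Type} (H : B → A) {c : FreeGroup (A ⊕ B)} (h : c ∈ hc H) :
    em c ∈ hc (Option.map H) := by
  have h1 : hc H ≤ (hc (Option.map H)).comap em := by
    refine (Subgroup.closure_le _).2 ?_
    rintro _ ⟨b, rfl⟩
    refine Subgroup.subset_closure ⟨some b, ?_⟩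
    show _ = em (of (Sum.inl (H b)))
    rw [em_of]
    rfl
  exact h1 h

theorem hc_x {A B : Type} (H : B → A) :
    (of (Sum.inl none) : FreeGroup (Option A ⊕ Option B)) ∈ hc (Option.map H) :=
  Subgroup.subset_closure ⟨none, rfl⟩

/-- the induction step with free types -/
theorem the_step {A B : Type} {M g j : ℕ} (hM : M = j + (g + 1)) (hN : M + 1 = j + 1 + (g + 1))
    (Θ : FreeGroup (Fin 2 × Fin M) ≃* FreeGroup (A ⊕ B)) (z : FreeGroup (A ⊕ B))
    (h1 : Θ (zeta M) = z) (r : FreeGroup A) (i : FreeGroup (Fin 2 × Fin (g + 1)) →* FreeGroup A)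
    (h2 : ∀ l : Fin 2 × Fin (g + 1), Θ (of (l.1, Fin.cast hM.symm (Fin.natAdd j l.2))) =
      jn B (r⁻¹ * i (of l) * r)) (p : Fin j → A) (q : Fin j → B)
    (H : B → A)
    (h3 : ∀ k : Fin j, ∃ c ∈ hc H,
      Θ (of (1, Fin.cast hM.symm (Fin.castAdd (g + 1) k))) = c * (of (Sum.inl (p k)))⁻¹ * c⁻¹)
    (h4 : ∀ k : Fin j, ∃ c ∈ hc H,
      Θ (of (0, Fin.cast hM.symm (Fin.castAdd (g + 1) k))) = c * of (Sum.inr (q k)) * c⁻¹)
    (P : Fin (j + 1) → Option A) (hP : P 0 = none) (hP' : ∀ k, P (Fin.succ k) = some (p k))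
    (Q : Fin (j + 1) → Option B) (hQ : Q 0 = none) (hQ' : ∀ k, Q (Fin.succ k) = some (q k)) :
    ∃ Θ' : FreeGroup (Fin 2 × Fin (M + 1)) ≃* FreeGroup (Option A ⊕ Option B),
    Θ' (zeta (M + 1)) = of (Sum.inr none) * (of (Sum.inl none))⁻¹ * (of (Sum.inr none))⁻¹ * em z *
        of (Sum.inl none) ∧
    (∀ l : Fin 2 × Fin (g + 1), Θ' (of (l.1, Fin.cast hN.symm (Fin.natAdd (j + 1) l.2))) =
      jn (Option B) ((inc r * xx A)⁻¹ * (inc.comp i) (of l) * (inc r * xx A))) ∧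
    (∀ k : Fin (j + 1), ∃ c ∈ hc (Option.map H),
      Θ' (of (1, Fin.cast hN.symm (Fin.castAdd (g + 1) k))) = c * (of (Sum.inl (P k)))⁻¹ * c⁻¹) ∧
    (∀ k : Fin (j + 1), ∃ c ∈ hc (Option.map H),
      Θ' (of (0, Fin.cast hN.symm (Fin.castAdd (g + 1) k))) = c * of (Sum.inr (Q k)) * c⁻¹) := by
  refine ⟨tE Θ, ?_, ?_, ?_, ?_⟩
  · rw [zeta_cons, _root_.map_mul, _root_.map_mul, _root_.map_mul, _root_.map_mul,
      _root_.map_inv, _root_.map_inv, tE_a, tE_b, tE_sh, h1]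
    group
  · intro l
    have e : (of (l.1, Fin.cast hN.symm (Fin.natAdd (j + 1) l.2)) : FreeGroup (Fin 2 × Fin (M + 1)))
        = sh M (of (l.1, Fin.cast hM.symm (Fin.natAdd j l.2))) := by
      rw [sh_of]
      refine congrArg of (Prod.ext rfl (Fin.ext ?_))
      show j + 1 + (l.2 : ℕ) = (j + (l.2 : ℕ)) + 1
      omega
    rw [e, tE_sh, h2, em_jn]
    have e1 : (of (Sum.inl none) : FreeGroup (Option A ⊕ Option B)) = jn (Option B) (xx A) := by
      rw [mof]
    rw [e1, ← _root_.map_inv, ← _root_.map_mul, ← _root_.map_mul]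
    congr 1
    rw [MonoidHom.comp_apply, _root_.map_mul, _root_.map_mul, _root_.map_inv]
    group
  · intro k
    refine Fin.cases ?_ (fun k => ?_) k
    · refine ⟨1, one_mem _, ?_⟩
      have e : (of (1, Fin.cast hN.symm (Fin.castAdd (g + 1) (0 : Fin (j + 1)))) :
          FreeGroup (Fin 2 × Fin (M + 1))) = of (1, 0) :=
        congrArg of (Prod.ext rfl (Fin.ext rfl))
      rw [e, tE_b, hP]
      group
    · obtain ⟨c, hcc, hc⟩ := h3 k
      refine ⟨(of (Sum.inl none))⁻¹ * em c, mul_mem (inv_mem (hc_x H)) (hc_em H hcc), ?_⟩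
      have e : (of (1, Fin.cast hN.symm (Fin.castAdd (g + 1) (Fin.succ k))) :
          FreeGroup (Fin 2 × Fin (M + 1))) =
          sh M (of (1, Fin.cast hM.symm (Fin.castAdd (g + 1) k))) := by
        rw [sh_of]
        exact congrArg of (Prod.ext rfl (Fin.ext rfl))
      rw [e, tE_sh, hc, _root_.map_mul, _root_.map_mul, _root_.map_inv, _root_.map_inv, em_of, hP']
      show _ = (of (Sum.inl none))⁻¹ * em c * (of (Sum.inl (some (p k))))⁻¹ * _
      simp only [Sum.map_inl]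
      group
  · intro k
    refine Fin.cases ?_ (fun k => ?_) k
    · refine ⟨1, one_mem _, ?_⟩
      have e : (of (0, Fin.cast hN.symm (Fin.castAdd (g + 1) (0 : Fin (j + 1)))) :
          FreeGroup (Fin 2 × Fin (M + 1))) = of (0, 0) :=
        congrArg of (Prod.ext rfl (Fin.ext rfl))
      rw [e, tE_a, hQ]
      group
    · obtain ⟨c, hcc, hc⟩ := h4 k
      refine ⟨(of (Sum.inl none))⁻¹ * em c, mul_mem (inv_mem (hc_x H)) (hc_em H hcc), ?_⟩
      have e : (of (0, Fin.cast hN.symm (Fin.castAdd (g + 1) (Fin.succ k))) :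
          FreeGroup (Fin 2 × Fin (M + 1))) =
          sh M (of (0, Fin.cast hM.symm (Fin.castAdd (g + 1) k))) := by
        rw [sh_of]
        exact congrArg of (Prod.ext rfl (Fin.ext rfl))
      rw [e, tE_sh, hc, _root_.map_mul, _root_.map_mul, _root_.map_inv, em_of, hQ']
      simp only [Sum.map_inr]
      group

/-- the statement for a free number of handles -/
theorem the_aux (g : ℕ) : ∀ (j N : ℕ) (hN : N = j + (g + 1)),
    ∃ Θ : FreeGroup (Fin 2 × Fin N) ≃* FreeGroup (Lt g j ⊕ Ho j),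
    Θ (zeta N) = zc g j ∧
    (∀ l : Fin 2 × Fin (g + 1), Θ (of (l.1, Fin.cast hN.symm (Fin.natAdd j l.2))) =
      jn (Ho j) ((rho g j)⁻¹ * io g j (of l) * rho g j)) ∧
    (∀ k : Fin j, ∃ c ∈ hc (hj g j),
      Θ (of (1, Fin.cast hN.symm (Fin.castAdd (g + 1) k))) =
      c * (of (Sum.inl (hj g j (hk j k))) : FreeGroup (Lt g j ⊕ Ho j))⁻¹ * c⁻¹) ∧
    (∀ k : Fin j, ∃ c ∈ hc (hj g j),
      Θ (of (0, Fin.cast hN.symm (Fin.castAdd (g + 1) k))) =
      c * (of (Sum.inr (hk j k)) : FreeGroup (Lt g j ⊕ Ho j)) * c⁻¹) := by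
  intro j
  induction j with
  | zero =>
    intro N hN
    obtain rfl : N = g + 1 := by omega
    refine ⟨(FreeGroup.freeGroupCongr (Equiv.sumEmpty (Fin 2 × Fin (g + 1)) Empty).symm :
      FreeGroup (Fin 2 × Fin (g + 1)) ≃* FreeGroup ((Fin 2 × Fin (g + 1)) ⊕ Empty)),
      rfl, ?_, fun k => k.elim0, fun k => k.elim0⟩
    intro l
    have e : ((l.1, Fin.cast hN.symm (Fin.natAdd 0 l.2)) : Fin 2 × Fin (g + 1)) = l :=
      Prod.ext rfl (Fin.ext (by
        show 0 + (l.2 : ℕ) = l.2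
        omega))
    rw [e]
    show FreeGroup.map (Sum.inl : Fin 2 × Fin (g + 1) → (Fin 2 × Fin (g + 1)) ⊕ Empty) (of l) =
      FreeGroup.map (Sum.inl : Fin 2 × Fin (g + 1) → (Fin 2 × Fin (g + 1)) ⊕ Empty)
        ((1 : FreeGroup (Fin 2 × Fin (g + 1)))⁻¹ * of l * 1)
    rw [inv_one, one_mul, mul_one]
  | succ j ih =>
    intro N hN
    obtain ⟨M, rfl⟩ : ∃ M, N = M + 1 := ⟨j + (g + 1), by omega⟩
    have hM : M = j + (g + 1) := by omega
    obtain ⟨Θ, h1, h2, h3, h4⟩ := ih M hM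
    exact the_step (A := Lt g j) (B := Ho j) hM hN Θ _ h1 _ _ h2 _ _ _ h3 h4
      (fun k => hj g (j + 1) (hk (j + 1) k)) rfl (fun k => rfl) (hk (j + 1)) rfl (fun k => rfl)

theorem the : THE := fun g j => the_aux g j _ rfl

end Pool.Agent.TOW.H20
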